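import Pool.Agent.Helper17.SA.St4

/-!
# Module C65 of project SA: the counts for the alternating group of degree 6 and the prime 5
-/

set_option autoImplicit false

open Equiv Pool.Agent.Helper17.SA

namespace Pool.Agent.Helper33.SA

theorem cardA6 : Nat.card (alternatingGroup (Fin 6)) = 360 := by
  rw [nat_card_alternatingGroup, Nat.card_eq_fintype_card, Fintype.card_fin]
  decide

theorem cardP5 (P : Sylow 5 (alternatingGroup (Fin 6))) : Nat.card P = 5 := by
  have : Fact (Nat.Prime 5) := ⟨by norm_num⟩
  rw [P.card_eq_multiplicity, cardA6]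
  have : Nat.factorization 360 5 = 1 := by
    rw [show (360 : ℕ) = 5 ^ 1 * 72 by norm_num]
    rw [Nat.factorization_mul (by norm_num) (by norm_num), Finsupp.add_apply,
      Nat.Prime.factorization_pow (by norm_num : Nat.Prime 5), Finsupp.single_eq_same,
      Nat.factorization_eq_zero_of_not_dvd (by norm_num)]
  rw [this]
  norm_num

theorem cardC5 (s : alternatingGroup (Fin 6)) (hs : orderOf s = 5) :
    Nat.card {y : alternatingGroup (Fin 6) // y * s * y⁻¹ = s} ≤ 5 := by
  have hs' : orderOf (s : Perm (Fin 6)) = 5 := by
    rw [Subgroup.orderOf_coe]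
    exact hs
  have hc : (s : Perm (Fin 6)).IsCycle := by
    apply Perm.isCycle_of_prime_order'
    · rw [hs']
      norm_num
    · rw [hs', Fintype.card_fin]
      norm_num
  have hct : (s : Perm (Fin 6)).cycleType = {5} := by
    rw [hc.cycleType, ← hc.orderOf, hs']
  have h1 : Nat.card (Subgroup.centralizer {(s : Perm (Fin 6))}) = 5 := by
    rw [Perm.nat_card_centralizer, hct]
    decide
  rw [← h1]
  refine Nat.card_le_card_of_injective
    (fun y => ⟨(y.1 : Perm (Fin 6)), ?_⟩) ?_
  · rw [Subgroup.mem_centralizer_singleton_iff]
    have h2 : y.1 * s = s * y.1 := by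
      have := y.2
      rw [mul_inv_eq_iff_eq_mul] at this
      exact this
    have h3 := congrArg (fun z : alternatingGroup (Fin 6) => (z : Perm (Fin 6))) h2
    simpa using h3
  · intro y y' h
    have := congrArg Subtype.val h
    apply Subtype.ext
    apply Subtype.ext
    exact this

theorem badP5 (P : Sylow 5 (alternatingGroup (Fin 6))) :
    Nat.card {y : alternatingGroup (Fin 6) // Bad (P : Subgroup (alternatingGroup (Fin 6))) y} ≤
      10 := by
  classical
  have : Fact (Nat.Prime 5) := ⟨by norm_num⟩
  have hP := cardP5 P
  have hord : ∀ s ∈ P, s ≠ 1 → orderOf s = 5 := by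
    intro s hs h1
    have h2 : orderOf s ∣ 5 := by
      rw [← hP]
      exact Subgroup.orderOf_dvd_natCard (P : Subgroup (alternatingGroup (Fin 6))) hs
    rcases (Nat.dvd_prime (by norm_num)).1 h2 with h3 | h3
    · exact absurd (orderOf_eq_one_iff.1 h3) h1
    · exact h3
  have hgen : ∀ s ∈ P, s ≠ 1 → ∀ z ∈ P, z ∈ Subgroup.zpowers s := by
    intro s hs h1 z hz
    have h2 : Subgroup.zpowers s ≤ (P : Subgroup (alternatingGroup (Fin 6))) := by
      rw [Subgroup.zpowers_le]
      exact hs
    have h3 : Subgroup.zpowers s = (P : Subgroup (alternatingGroup (Fin 6))) := by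
      apply Subgroup.eq_of_le_of_card_ge h2
      rw [Nat.card_zpowers, hord s hs h1]
      exact hP.le
    rw [h3]
    exact hz
  have hN : ∀ y : alternatingGroup (Fin 6), Bad (P : Subgroup (alternatingGroup (Fin 6))) y →
      y ∈ Subgroup.normalizer ((P : Subgroup (alternatingGroup (Fin 6))) : Set _) := by
    rintro y ⟨z, hz, hz1, hz2⟩
    have h1 : ∀ w ∈ (P : Subgroup (alternatingGroup (Fin 6))),
        y * w * y⁻¹ ∈ (P : Subgroup (alternatingGroup (Fin 6))) := by
      intro w hw
      obtain ⟨k, rfl⟩ := Subgroup.mem_zpowers_iff.1 (hgen z hz hz1 w hw)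
      rw [← conj_zpow]
      exact Subgroup.zpow_mem _ hz2 k
    have hfin : (P : Subgroup (alternatingGroup (Fin 6))).map (MulAut.conj y).toMonoidHom =
        (P : Subgroup (alternatingGroup (Fin 6))) := by
      apply Subgroup.eq_of_le_of_card_ge
      · rintro _ ⟨w, hw, rfl⟩
        exact h1 w hw
      · rw [Subgroup.card_map_of_injective (MulAut.conj y).injective]
    rw [Subgroup.mem_normalizer_iff]
    intro w
    constructor
    · exact h1 w
    · intro hw
      rw [← hfin] at hw
      obtain ⟨v, hv, hv'⟩ := hw
      have : v = w := by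
        apply (MulAut.conj y).injective
        simpa using hv'
      rw [← this]
      exact hv
  obtain ⟨s, hs, hs1⟩ : ∃ s ∈ P, s ≠ 1 := by
    by_contra hcon
    push Not at hcon
    have : (P : Subgroup (alternatingGroup (Fin 6))) = ⊥ := by
      rw [Subgroup.eq_bot_iff_forall]
      exact hcon
    have h2 : Nat.card (P : Subgroup (alternatingGroup (Fin 6))) = 1 := by
      rw [this]
      simp
    have h3 : Nat.card (P : Subgroup (alternatingGroup (Fin 6))) = 5 := hP
    omega
  set N : Subgroup (alternatingGroup (Fin 6)) := Subgroup.normalizer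
    ((P : Subgroup (alternatingGroup (Fin 6))) : Set (alternatingGroup (Fin 6))) with hNdef
  have hle : Nat.card N ≤ 20 := by
    have : Fintype N := Fintype.ofFinite _
    rw [Nat.card_eq_fintype_card]
    have h1 := Finset.card_le_mul_card_image (f := fun y : N => (y : alternatingGroup (Fin 6)) *
      s * (y : alternatingGroup (Fin 6))⁻¹) Finset.univ 5 ?_
    · refine h1.trans ?_
      have h2 : (Finset.univ.image (fun y : N => (y : alternatingGroup (Fin 6)) *
          s * (y : alternatingGroup (Fin 6))⁻¹)).card ≤ 4 := by
        have : Fintype P := Fintype.ofFinite _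
        have h3 : (Finset.univ.image (fun y : N => (y : alternatingGroup (Fin 6)) *
          s * (y : alternatingGroup (Fin 6))⁻¹)) ⊆
            (Finset.image (fun z : (P : Subgroup (alternatingGroup (Fin 6))) =>
              (z : alternatingGroup (Fin 6))) Finset.univ).erase 1 := by
          intro z hz
          rw [Finset.mem_image] at hz
          obtain ⟨y, _, rfl⟩ := hz
          rw [Finset.mem_erase]
          constructor
          · intro h
            apply hs1
            have : s = (y : alternatingGroup (Fin 6))⁻¹ * 1 * (y : alternatingGroup (Fin 6)) := by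
              rw [← h]
              group
            rw [this]
            group
          · rw [Finset.mem_image]
            have h4 := (Subgroup.mem_normalizer_iff.1 y.2 s).1 hs
            exact ⟨⟨_, h4⟩, Finset.mem_univ _, rfl⟩
        refine (Finset.card_le_card h3).trans ?_
        rw [Finset.card_erase_of_mem, Finset.card_image_of_injective _ Subtype.val_injective,
          Finset.card_univ, ← Nat.card_eq_fintype_card, hP]
        rw [Finset.mem_image]
        exact ⟨⟨1, P.one_mem⟩, Finset.mem_univ _, rfl⟩
      omega
    · intro a ha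
      rw [Finset.mem_image] at ha
      obtain ⟨y0, _, rfl⟩ := ha
      have h2 := cardC5 s (hord s hs hs1)
      have : Fintype {y : alternatingGroup (Fin 6) // y * s * y⁻¹ = s} := Fintype.ofFinite _
      rw [Nat.card_eq_fintype_card, ← Finset.card_univ] at h2
      refine le_trans ?_ h2
      refine Finset.card_le_card_of_injOn
        (fun y => if h : ((y0 : alternatingGroup (Fin 6))⁻¹ * y) * s *
            ((y0 : alternatingGroup (Fin 6))⁻¹ * y)⁻¹ = s then
          ⟨(y0 : alternatingGroup (Fin 6))⁻¹ * y, h⟩ else ⟨1, by group⟩) ?_ ?_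
      · intro y _
        exact Finset.mem_coe.2 (Finset.mem_univ _)
      · have h5 : ∀ y : N, (y : alternatingGroup (Fin 6)) * s *
            (y : alternatingGroup (Fin 6))⁻¹ = (y0 : alternatingGroup (Fin 6)) * s *
            (y0 : alternatingGroup (Fin 6))⁻¹ →
            ((y0 : alternatingGroup (Fin 6))⁻¹ * y) * s *
            ((y0 : alternatingGroup (Fin 6))⁻¹ * y)⁻¹ = s := by
          intro y hy
          calc ((y0 : alternatingGroup (Fin 6))⁻¹ * y) * s *
              ((y0 : alternatingGroup (Fin 6))⁻¹ * y)⁻¹
              = (y0 : alternatingGroup (Fin 6))⁻¹ * ((y : alternatingGroup (Fin 6)) * s *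
                (y : alternatingGroup (Fin 6))⁻¹) * y0 := by group
            _ = s := by
              rw [hy]
              group
        intro y hy y' hy' heq
        rw [Finset.mem_coe, Finset.mem_filter] at hy hy'
        have h6 := h5 y hy.2
        have h7 := h5 y' hy'.2
        simp only [dif_pos h6, dif_pos h7] at heq
        have h8 := congrArg Subtype.val heq
        simp only [mul_right_inj] at h8
        exact Subtype.ext h8
  have hidx := P.card_eq_index_normalizer
  have hmod := card_sylow_modEq_one 5 (alternatingGroup (Fin 6))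
  have hmul := Subgroup.card_mul_index N
  rw [cardA6] at hmul
  have hidx' : Nat.card (Sylow 5 (alternatingGroup (Fin 6))) = N.index := hidx
  rw [hidx'] at hmod
  have hN10 : Nat.card N ≤ 10 := by
    have hmod' : N.index % 5 = 1 := hmod
    generalize N.index = i at hmul hmod'
    generalize Nat.card N = k at hmul hle
    by_contra hk
    have h11 : 11 ≤ k := by omega
    interval_cases k <;> omega
  refine le_trans (Nat.card_le_card_of_injective (fun y => (⟨y.1, hN y.1 y.2⟩ : N)) ?_) hN10
  intro y y' h
  have := congrArg Subtype.val h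
  exact Subtype.ext this

theorem pC65 : StC65 := by
  classical
  intro V V' n0 _ P c x
  have hb := badP5 P
  have hP := cardP5 P
  constructor
  · refine le_trans (Nat.card_le_card_of_injective (fun n => (⟨c * n.1, n.2.2⟩ :
      {y : alternatingGroup (Fin 6) // Bad (P : Subgroup (alternatingGroup (Fin 6))) y})) ?_) hb
    intro n n' h
    have := congrArg Subtype.val h
    simp only [mul_right_inj] at this
    exact Subtype.ext this
  · have h1 : Nat.card ({y : alternatingGroup (Fin 6) //
        Bad (P : Subgroup (alternatingGroup (Fin 6))) y} ⊕ (P × P)) ≤ 35 := by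
      rw [Nat.card_sum, Nat.card_prod, hP]
      omega
    refine le_trans ?_ h1
    have h2 : ∀ n : {n : alternatingGroup (Fin 6) //
        InD (V' : Subgroup (alternatingGroup (Fin 6))) V n0 n ∧
        (Bad (P : Subgroup (alternatingGroup (Fin 6))) (c * n) ∨
          ∃ a ∈ P, ∃ b ∈ P, c * n = a * x * b)},
        ∃ z : {y : alternatingGroup (Fin 6) //
        Bad (P : Subgroup (alternatingGroup (Fin 6))) y} ⊕ (P × P),
        c * n.1 = Sum.elim (fun y => y.1) (fun ab => (ab.1 : alternatingGroup (Fin 6)) * x *
          ab.2) z := by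
      rintro ⟨n, _, hn | ⟨a, ha, b, hb, hn⟩⟩
      · exact ⟨Sum.inl ⟨_, hn⟩, rfl⟩
      · exact ⟨Sum.inr (⟨a, ha⟩, ⟨b, hb⟩), hn⟩
    choose f hf using h2
    refine Nat.card_le_card_of_injective f ?_
    intro n n' h
    have h3 := hf n
    rw [h, ← hf n'] at h3
    apply Subtype.ext
    exact mul_left_cancel h3

end Pool.Agent.Helper33.SA
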