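import Pool.Agent.Helper17.SA.St4

/-!
# Module HAL of project SA: property Hit for the alternating groups of degrees 5, 6, 8
-/

set_option autoImplicit false

open Equiv Pool.Agent.Helper17.SA

namespace Pool.Agent.Helper33.SA

theorem conj_inj {m : ℕ} (hm : 4 ≤ m) {a b : alternatingGroup (Fin m)}
    (h : MulAut.conj a = MulAut.conj b) : a = b := by
  have hc : Subgroup.center (alternatingGroup (Fin m)) = ⊥ :=
    alternatingGroup.center_eq_bot (by simpa using hm)
  have h1 : a⁻¹ * b ∈ Subgroup.center (alternatingGroup (Fin m)) := by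
    rw [Subgroup.mem_center_iff]
    intro g
    have h2 := congrArg (fun φ : MulAut (alternatingGroup (Fin m)) => φ g) h
    simp only [MulAut.conj_apply] at h2
    calc g * (a⁻¹ * b) = a⁻¹ * (a * g * a⁻¹) * b := by group
      _ = a⁻¹ * (b * g * b⁻¹) * b := by rw [h2]
      _ = a⁻¹ * b * g := by group
  rw [hc, Subgroup.mem_bot] at h1
  exact (inv_mul_eq_one.mp h1)

theorem hitOf (m : ℕ) (hm : m = 5 ∨ m = 6 ∨ m = 8) (hREG : StREG) (hAUO : StAUO)
    (hH : HitIn (alternatingGroup (Fin m))) : Hit (alternatingGroup (Fin m)) := by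
  refine ⟨hREG m hm, ?_⟩
  intro V V' n0 hn0 ι _ p hp hinj h2 T c hT j
  have h4 : 4 ≤ m := by omega
  choose H' hH' hT' using fun i => hAUO m hm (p i) (hp i) (h2 i) (T i) (hT i)
  choose H hH1 using fun i => (hH' i).exists_le_sylow
  obtain ⟨n, n', hn, hn', hg, hg', hr⟩ := hH V V' n0 hn0 ι p hp hinj h2 H c j
  have key : ∀ x : alternatingGroup (Fin m), ∀ i, ¬ Bad (H i : Subgroup _) x →
      ∀ t ∈ T i, MulAut.conj x * t * (MulAut.conj x)⁻¹ ∈ T i → t = 1 := by
    intro x i hx t ht ht'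
    obtain ⟨y, hy, rfl⟩ := (hT' i t).1 ht
    obtain ⟨z, hz, hz'⟩ := (hT' i _).1 ht'
    have h1 : MulAut.conj (x * y * x⁻¹) = MulAut.conj z := by
      rw [← hz', map_mul, map_mul, map_inv]
    have h2 := conj_inj h4 h1
    by_contra hne
    apply hx
    refine ⟨y, hH1 i hy, ?_, ?_⟩
    · intro hy1
      apply hne
      rw [hy1, map_one]
    · rw [h2]
      exact hH1 i hz
  refine ⟨n, n', hn, hn', fun i => key _ i (hg i), fun i => key _ i (hg' i), ?_⟩
  intro t ht t' ht' heq
  obtain ⟨a, ha, rfl⟩ := (hT' j t).1 ht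
  obtain ⟨b, hb, rfl⟩ := (hT' j t').1 ht'
  apply hr a (hH1 j ha) b (hH1 j hb)
  apply conj_inj h4
  rw [heq]
  simp only [map_mul]

theorem pHAL : StREG → StHN5 → StHN6 → StHN8 → StAUO → StHAL := by
  intro hREG h5 h6 h8 hAUO m hm
  refine hitOf m hm hREG hAUO ?_
  rcases hm with rfl | rfl | rfl
  · exact h5
  · exact h6
  · exact h8

end Pool.Agent.Helper33.SA
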